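import Pool.Agent.Helper61.NW.Goals

set_option autoImplicit false

namespace Pool.Agent.Helper35.NW

open Pool.Agent.Helper52.Wq2
open Pool.Agent.Helper61.NW

universe u

section conn

variable {V : Type u} {G : SimpleGraph V}

/-- Union of connected sets which meet. -/
theorem union_meet {s t : Set V} (hs : Conn G s) (ht : Conn G t) {a : V} (ha : a ∈ s)
    (hb : a ∈ t) : Conn G (s ∪ t) := by
  refine ⟨⟨a, Or.inl ha⟩, ?_⟩
  intro A hA hne hcl
  have h1 : (A ∩ s).Nonempty → s ⊆ A := by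
    intro hn x hx
    exact (hs.2 (A ∩ s) Set.inter_subset_right hn
      (fun y hy z hz hyz => ⟨hcl y hy.1 z (Or.inl hz) hyz, hz⟩) hx).1
  have h2 : (A ∩ t).Nonempty → t ⊆ A := by
    intro hn x hx
    exact (ht.2 (A ∩ t) Set.inter_subset_right hn
      (fun y hy z hz hyz => ⟨hcl y hy.1 z (Or.inr hz) hyz, hz⟩) hx).1
  obtain ⟨x, hx⟩ := hne
  have both : s ⊆ A ∧ t ⊆ A := by
    rcases hA hx with hxs | hxt
    · have e1 := h1 ⟨x, hx, hxs⟩
      exact ⟨e1, h2 ⟨a, e1 ha, hb⟩⟩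
    · have e1 := h2 ⟨x, hx, hxt⟩
      exact ⟨h1 ⟨a, e1 hb, ha⟩, e1⟩
  rintro y (hy | hy)
  · exact both.1 hy
  · exact both.2 hy

/-- A connected set with connected sets which meet it. -/
theorem union_star {ι : Type*} {s : Set V} (hs : Conn G s) (F : ι → Set V)
    (hF : ∀ i, Conn G (F i)) (hm : ∀ i, ∃ a, a ∈ s ∧ a ∈ F i) : Conn G (s ∪ ⋃ i, F i) := by
  refine ⟨hs.1.mono Set.subset_union_left, ?_⟩
  intro A hA hne hcl
  have h1 : (A ∩ s).Nonempty → s ⊆ A := by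
    intro hn x hx
    exact (hs.2 (A ∩ s) Set.inter_subset_right hn
      (fun y hy z hz hyz => ⟨hcl y hy.1 z (Or.inl hz) hyz, hz⟩) hx).1
  have h2 : ∀ i, (A ∩ F i).Nonempty → F i ⊆ A := by
    intro i hn x hx
    exact ((hF i).2 (A ∩ F i) Set.inter_subset_right hn
      (fun y hy z hz hyz => ⟨hcl y hy.1 z (Or.inr (Set.mem_iUnion.2 ⟨i, hz⟩)) hyz, hz⟩) hx).1
  have hsA : s ⊆ A := by
    obtain ⟨x, hx⟩ := hne
    rcases hA hx with hxs | hxt
    · exact h1 ⟨x, hx, hxs⟩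
    · obtain ⟨i, hi⟩ := Set.mem_iUnion.1 hxt
      obtain ⟨a, ha, ha'⟩ := hm i
      exact h1 ⟨a, h2 i ⟨x, hx, hi⟩ ha', ha⟩
  rintro y (hy | hy)
  · exact hsA hy
  · obtain ⟨i, hi⟩ := Set.mem_iUnion.1 hy
    obtain ⟨a, ha, ha'⟩ := hm i
    exact h2 i ⟨a, hsA ha, ha'⟩ hi

/-- A chain of connected sets over the integers. -/
theorem union_chain (F : ℤ → Set V) (hF : ∀ i, Conn G (F i))
    (hm : ∀ i, ∃ a, a ∈ F i ∧ a ∈ F (i + 1)) : Conn G (⋃ i, F i) := by
  refine ⟨((hF 0).1).mono (Set.subset_iUnion F 0), ?_⟩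
  intro A hA hne hcl
  have h2 : ∀ i, (A ∩ F i).Nonempty → F i ⊆ A := by
    intro i hn x hx
    exact ((hF i).2 (A ∩ F i) Set.inter_subset_right hn
      (fun y hy z hz hyz => ⟨hcl y hy.1 z (Set.mem_iUnion.2 ⟨i, hz⟩) hyz, hz⟩) hx).1
  have up : ∀ i, F i ⊆ A → F (i + 1) ⊆ A := by
    intro i hi
    obtain ⟨a, ha, ha'⟩ := hm i
    exact h2 _ ⟨a, hi ha, ha'⟩
  have dn : ∀ i, F (i + 1) ⊆ A → F i ⊆ A := by
    intro i hi
    obtain ⟨a, ha, ha'⟩ := hm i
    exact h2 _ ⟨a, hi ha', ha⟩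
  obtain ⟨x, hx⟩ := hne
  obtain ⟨i₀, hi₀⟩ := Set.mem_iUnion.1 (hA hx)
  have h0 : F i₀ ⊆ A := h2 _ ⟨x, hx, hi₀⟩
  have hall : ∀ i, F i ⊆ A := by
    have hu : ∀ n : ℕ, F (i₀ + n) ⊆ A := by
      intro n
      induction n with
      | zero => rw [Nat.cast_zero, add_zero]; exact h0
      | succ n ih => rw [Nat.cast_succ, ← add_assoc]; exact up _ ih
    have hd : ∀ n : ℕ, F (i₀ - n) ⊆ A := by
      intro n
      induction n with
      | zero => rw [Nat.cast_zero, sub_zero]; exact h0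
      | succ n ih =>
        apply dn
        have : i₀ - ((n + 1 : ℕ) : ℤ) + 1 = i₀ - n := by push_cast; ring
        rw [this]; exact ih
    intro i
    rcases le_total i₀ i with h | h
    · have := hu (i - i₀).toNat
      rwa [Int.toNat_of_nonneg (by omega), add_sub_cancel] at this
    · have := hd (i₀ - i).toNat
      rwa [Int.toNat_of_nonneg (by omega), sub_sub_cancel] at this
  rintro y hy
  obtain ⟨i, hi⟩ := Set.mem_iUnion.1 hy
  exact hall i hi

/-- Cutting a connected set at `T`: the component of `a`. -/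
theorem cut {L T : Set V} (hL : Conn G L) {a b : V} (ha : a ∈ L) (haT : a ∉ T) (hb : b ∈ L)
    (hbT : b ∈ T) : ∃ A : Set V, A ⊆ L ∧ a ∈ A ∧ (∀ x ∈ A, x ∉ T) ∧ Conn G A ∧
      ∃ x ∈ A, ∃ y ∈ T, G.Adj x y := by
  let A : Set V := {x | Relation.ReflTransGen (fun u v => G.Adj u v ∧ v ∈ L ∧ v ∉ T) a x}
  have hA1 : ∀ x ∈ A, x ∈ L ∧ x ∉ T := by
    intro x hx
    cases (show Relation.ReflTransGen (fun u v => G.Adj u v ∧ v ∈ L ∧ v ∉ T) a x from hx) with
    | refl => exact ⟨ha, haT⟩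
    | tail _ h => exact h.2
  have haA : a ∈ A := Relation.ReflTransGen.refl
  refine ⟨A, fun x hx => (hA1 x hx).1, haA, fun x hx => (hA1 x hx).2, ?_, ?_⟩
  · refine conn_of_root haA ?_
    intro x hx
    have hx' : Relation.ReflTransGen (fun u v => G.Adj u v ∧ v ∈ L ∧ v ∉ T) a x := hx
    clear hx
    induction hx' with
    | refl => exact Relation.ReflTransGen.refl
    | tail hab hbc ih => exact ih.tail ⟨hbc.1, hab.tail hbc⟩
  · by_contra hcon
    push Not at hcon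
    have := hL.2 A (fun x hx => (hA1 x hx).1) ⟨a, haA⟩ (by
      intro x hx y hy hxy
      exact Relation.ReflTransGen.tail hx ⟨hxy, hy, fun hyT => hcon x hx y hyT hxy⟩)
    exact (hA1 b (this hb)).2 hbT

end conn

section grp

variable {Γ : Type u} [Group Γ] {S : Set Γ}

/-- Left translate. -/
def tr (g : Γ) (s : Set Γ) : Set Γ := {x | g⁻¹ * x ∈ s}

theorem mem_tr {g x : Γ} {s : Set Γ} : x ∈ tr g s ↔ g⁻¹ * x ∈ s := Iff.rfl

theorem tr_eq (g : Γ) (s : Set Γ) : tr g s = (fun x => g * x) '' s := by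
  ext x
  constructor
  · intro h
    exact ⟨g⁻¹ * x, h, by group⟩
  · rintro ⟨y, hy, rfl⟩
    simpa [tr] using hy

theorem tr_conn (hS : IsGen S) (g : Γ) {s : Set Γ} (h : Conn (cay S) s) :
    Conn (cay S) (tr g s) := by
  rw [tr_eq]
  refine h.image _ ?_
  intro a _ b _ hab
  right
  rw [cay_adj hS] at hab ⊢
  have : (g * a)⁻¹ * (g * b) = a⁻¹ * b := by group
  rw [this]
  exact hab

theorem tr_fin (g : Γ) {s : Set Γ} (h : s.Finite) : (tr g s).Finite := by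
  rw [tr_eq]
  exact h.image _

/-- Finite connected sets with two given elements. -/
theorem exists_conn (hS : IsGen S) (g : Γ) :
    ∃ P : Set Γ, P.Finite ∧ Conn (cay S) P ∧ (1 : Γ) ∈ P ∧ g ∈ P := by
  have hg : g ∈ Subgroup.closure S := by rw [hS.1]; trivial
  induction hg using Subgroup.closure_induction with
  | mem x hx =>
    refine ⟨{1} ∪ {x}, (Set.finite_singleton _).union (Set.finite_singleton _),
      (conn_singleton _ _).union (conn_singleton _ _) rfl rfl ?_, Or.inl rfl, Or.inr rfl⟩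
    rw [cay_adj hS]
    simpa using hx
  | one => exact ⟨{1}, Set.finite_singleton _, conn_singleton _ _, rfl, rfl⟩
  | mul x y _ _ ihx ihy =>
    obtain ⟨P, h1, h2, h3, h4⟩ := ihx
    obtain ⟨P', h1', h2', h3', h4'⟩ := ihy
    refine ⟨P ∪ tr x P', h1.union (tr_fin _ h1'), union_meet h2 (tr_conn hS x h2') h4 ?_,
      Or.inl h3, Or.inr ?_⟩
    · rw [mem_tr]; simpa using h3'
    · rw [mem_tr]; simpa using h4'
  | inv x _ ih =>
    obtain ⟨P, h1, h2, h3, h4⟩ := ih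
    refine ⟨tr x⁻¹ P, tr_fin _ h1, tr_conn hS _ h2, ?_, ?_⟩
    · rw [mem_tr]; simpa using h4
    · rw [mem_tr]; simpa using h3

end grp

/-- Recursive choice. -/
theorem exists_seq {α : Type*} (R : ∀ n : ℕ, (∀ m, m < n → α) → α → Prop)
    (h : ∀ n prev, ∃ a, R n prev a) : ∃ e : ℕ → α, ∀ n, R n (fun m _ => e m) (e n) := by
  let F : ∀ n : ℕ, (∀ m, m < n → α) → α := fun n prev => Classical.choose (h n prev)
  let e : ℕ → α := WellFounded.fix (C := fun _ => α) (Nat.lt_wfRel.wf) F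
  refine ⟨e, ?_⟩
  intro n
  have h1 : e n = F n (fun m _ => e m) := WellFounded.fix_eq _ _ _
  rw [h1]
  exact Classical.choose_spec (h n _)

/-- Finite index from finitely many right cosets. -/
theorem exists_far {Γ : Type u} [Group Γ] (H : Subgroup Γ) (hH : ¬ H.FiniteIndex) (F : Set Γ)
    (hF : F.Finite) : ∃ x : Γ, ∀ h ∈ H, ∀ f ∈ F, x ≠ h * f := by
  by_contra hcon
  push Not at hcon
  apply hH
  have hFf : Finite F := hF
  have hsur : Function.Surjective (fun f : F => ((f.1⁻¹ : Γ) : Γ ⧸ H)) := by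
    intro q
    induction q using QuotientGroup.induction_on with
    | H y =>
      obtain ⟨h, hh, f, hf, he⟩ := hcon y⁻¹
      refine ⟨⟨f, hf⟩, ?_⟩
      rw [QuotientGroup.eq]
      have : (f⁻¹)⁻¹ * y = h⁻¹ := by
        have h2 : y = f⁻¹ * h⁻¹ := by
          rw [← mul_inv_rev, ← he, inv_inv]
        rw [h2]; group
      rw [this]
      exact H.inv_mem hh
  have : Finite (Γ ⧸ H) := Finite.of_surjective _ hsur
  exact Subgroup.finiteIndex_of_finite_quotient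

/-- **ZED.** -/
theorem zed : ZedStmt.{u} := by
  intro Γ _ S hS _ hbig
  obtain ⟨z, w, hz, hinj, hidx⟩ := hbig
  have hzc : ∀ (i : ℤ) (g : Γ), g * z ^ i = z ^ i * g := by
    intro i g
    exact ((show Commute g z from hz g).zpow_right i).eq
  obtain ⟨P, hPf, hPc, hP1, hPw⟩ := exists_conn hS w
  obtain ⟨B, hBf, hBc, hB1, hBz⟩ := exists_conn hS z
  obtain ⟨x, hx⟩ := exists_far (Subgroup.closure {z, w}) hidx
    (Set.image2 (fun p b => p * b⁻¹) P B) (hPf.image2 _ hBf)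
  obtain ⟨K, hKf, hKc, hK1, hKx⟩ := exists_conn hS x
  have hzH : z ∈ Subgroup.closure {z, w} := Subgroup.subset_closure (by simp)
  have hwH : w ∈ Subgroup.closure {z, w} := Subgroup.subset_closure (by simp)
  -- injectivity
  have hI : Function.Injective (fun p : ℤ × ℤ => w ^ p.1 * z ^ p.2) := by
    rintro ⟨n, l⟩ ⟨n', l'⟩ h
    have h : w ^ n * z ^ l = w ^ n' * z ^ l' := h
    have h2 : w ^ (n - n') * z ^ (l - l') = 1 := by
      rw [zpow_sub, zpow_sub]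
      calc w ^ n * (w ^ n')⁻¹ * (z ^ l * (z ^ l')⁻¹)
          = (w ^ n')⁻¹ * (w ^ n * z ^ l) * (z ^ l')⁻¹ := by
            rw [← zpow_neg, ← zpow_add, ← mul_assoc, ← mul_assoc, ← zpow_add, add_comm]
        _ = 1 := by rw [h]; group
    obtain ⟨h3, h4⟩ := hinj _ _ h2
    rw [Prod.mk.injEq]
    constructor <;> omega
  have hzi : Function.Injective (fun i : ℤ => z ^ i) := by
    intro i j h
    have h : z ^ i = z ^ j := h
    have := @hI (0, i) (0, j) (by simp [h])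
    simpa using this
  let E : Set Γ := Set.image2 (fun b k => x * b * k⁻¹) B K ∪
    Set.image2 (fun b b' => x * b' * b⁻¹ * x⁻¹) B B
  have hEf : E.Finite := (hBf.image2 _ hKf).union (hBf.image2 _ hBf)
  obtain ⟨N, hN0, hN⟩ : ∃ N : ℕ, 0 < N ∧ ∀ n l : ℤ, (N : ℤ) ≤ |n| → w ^ n * z ^ l ∉ E := by
    have h1 : ((fun p : ℤ × ℤ => w ^ p.1 * z ^ p.2) ⁻¹' E).Finite :=
      hEf.preimage hI.injOn
    have h2 := (h1.image (fun p : ℤ × ℤ => p.1.natAbs)).bddAbove
    obtain ⟨M, hM⟩ := h2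
    refine ⟨M + 1, Nat.succ_pos _, ?_⟩
    intro n l hn hE
    have := hM ⟨(n, l), hE, rfl⟩
    simp only at this
    rw [Int.abs_eq_natAbs] at hn
    have h5 : M + 1 ≤ n.natAbs := Int.ofNat_le.1 hn
    omega
  let t : ℕ → Γ := fun k => w ^ ((N : ℤ) * k) * x
  let T : ℕ → Set Γ := fun k => ⋃ i : ℤ, tr (t k * z ^ i) B
  have hTmem : ∀ k y, y ∈ T k ↔ ∃ l : ℤ, ∃ b ∈ B, y = t k * z ^ l * b := by
    intro k y
    constructor
    · intro h
      obtain ⟨l, hl⟩ := Set.mem_iUnion.1 h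
      exact ⟨l, _, hl, by group⟩
    · rintro ⟨l, b, hb, rfl⟩
      refine Set.mem_iUnion.2 ⟨l, ?_⟩
      rw [mem_tr, inv_mul_cancel_left]
      exact hb
  have hTc : ∀ k, Conn (cay S) (T k) := by
    intro k
    refine union_chain _ (fun i => tr_conn hS _ hBc) ?_
    intro i
    refine ⟨t k * z ^ (i + 1), ?_, ?_⟩
    · rw [mem_tr]
      have : (t k * z ^ i)⁻¹ * (t k * z ^ (i + 1)) = z := by
        rw [zpow_add_one]; group
      rw [this]; exact hBz
    · rw [mem_tr, inv_mul_cancel]; exact hB1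
  have hTz : ∀ k (e : ℤ) y, y ∈ T k → z ^ e * y ∈ T k := by
    intro k e y hy
    rw [hTmem] at hy ⊢
    obtain ⟨l, b, hb, rfl⟩ := hy
    refine ⟨e + l, b, hb, ?_⟩
    rw [zpow_add, ← mul_assoc (t k), hzc e (t k)]
    simp only [mul_assoc]
  have htT : ∀ k, t k ∈ T k := by
    intro k
    rw [hTmem]
    exact ⟨0, 1, hB1, by simp⟩
  have hgap : ∀ i k : ℕ, i ≠ k → (N : ℤ) ≤ |(N : ℤ) * i - (N : ℤ) * k| := by
    intro i k hik
    rw [← mul_sub, abs_mul, abs_of_nonneg (by positivity : (0 : ℤ) ≤ N)]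
    have : 1 ≤ |(i : ℤ) - k| := Int.one_le_abs (by omega)
    nlinarith
  -- (a)
  have ha : ∀ (n : ℤ) (k : ℕ), ∀ p ∈ P, w ^ n * p ∉ T k := by
    intro n k p hp h
    rw [hTmem] at h
    obtain ⟨l, b, hb, he⟩ := h
    apply hx (z ^ (-l) * w ^ (n - (N : ℤ) * k)) (Subgroup.mul_mem _
      (Subgroup.zpow_mem _ hzH _) (Subgroup.zpow_mem _ hwH _)) (p * b⁻¹) ⟨p, hp, b, hb, rfl⟩
    have he' : w ^ n * p = w ^ ((N : ℤ) * k) * (z ^ l * x) * b := by
      rw [he, ← hzc l x]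
      simp only [t, mul_assoc]
    have h3 : w ^ (n - (N : ℤ) * k) = (w ^ ((N : ℤ) * k))⁻¹ * w ^ n := by
      rw [← zpow_neg, ← zpow_add]; congr 1; ring
    rw [h3]
    calc x = z ^ (-l) * (w ^ ((N : ℤ) * k))⁻¹ * (w ^ ((N : ℤ) * k) * (z ^ l * x) * b) * b⁻¹ := by
          group
      _ = z ^ (-l) * ((w ^ ((N : ℤ) * k))⁻¹ * w ^ n) * (p * b⁻¹) := by
          rw [← he']; group
  -- (b)
  have hb' : ∀ i k : ℕ, i ≠ k → ∀ y ∈ K, w ^ ((N : ℤ) * i) * y ∉ T k := by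
    intro i k hik y hy h
    rw [hTmem] at h
    obtain ⟨l, b, hb, he⟩ := h
    apply hN ((N : ℤ) * i - (N : ℤ) * k) (-l) (hgap i k hik)
    left
    refine ⟨b, hb, y, hy, ?_⟩
    show x * b * y⁻¹ = _
    have he' : w ^ ((N : ℤ) * i) * y = w ^ ((N : ℤ) * k) * (z ^ l * x) * b := by
      rw [he, ← hzc l x]
      simp only [t, mul_assoc]
    have h3 : w ^ ((N : ℤ) * i - (N : ℤ) * k) = (w ^ ((N : ℤ) * k))⁻¹ * w ^ ((N : ℤ) * i) := by
      rw [← zpow_neg, ← zpow_add]; congr 1; ring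
    rw [hzc, h3]
    calc x * b * y⁻¹ = z ^ (-l) * (w ^ ((N : ℤ) * k))⁻¹ *
          (w ^ ((N : ℤ) * k) * (z ^ l * x) * b) * y⁻¹ := by group
      _ = z ^ (-l) * ((w ^ ((N : ℤ) * k))⁻¹ * w ^ ((N : ℤ) * i)) := by
          rw [← he']; group
  -- (c)
  have hc : ∀ i k : ℕ, ∀ y, y ∈ T i → y ∈ T k → i = k := by
    intro i k y hyi hyk
    by_contra hik
    rw [hTmem] at hyi hyk
    obtain ⟨l, b, hb, he⟩ := hyi
    obtain ⟨l', b', hb2, he'⟩ := hyk
    apply hN ((N : ℤ) * i - (N : ℤ) * k) (l - l') (hgap i k hik)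
    right
    refine ⟨b, hb, b', hb2, ?_⟩
    show x * b' * b⁻¹ * x⁻¹ = _
    have e1 : y = w ^ ((N : ℤ) * i) * (z ^ l * x) * b := by
      rw [he, ← hzc l x]
      simp only [t, mul_assoc]
    have e2 : y = w ^ ((N : ℤ) * k) * (z ^ l' * x) * b' := by
      rw [he', ← hzc l' x]
      simp only [t, mul_assoc]
    have h3 : w ^ ((N : ℤ) * i - (N : ℤ) * k) = (w ^ ((N : ℤ) * k))⁻¹ * w ^ ((N : ℤ) * i) := by
      rw [← zpow_neg, ← zpow_add]; congr 1; ring
    have h4 : z ^ (l - l') = z ^ (-l') * z ^ l := by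
      rw [← zpow_add]; congr 1; ring
    rw [h3, h4, ← mul_assoc, hzc (-l')]
    calc x * b' * b⁻¹ * x⁻¹ = z ^ (-l') * (w ^ ((N : ℤ) * k))⁻¹ *
          (w ^ ((N : ℤ) * k) * (z ^ l' * x) * b') * b⁻¹ * x⁻¹ := by group
      _ = z ^ (-l') * ((w ^ ((N : ℤ) * k))⁻¹ * w ^ ((N : ℤ) * i)) * z ^ l := by
          rw [← e2, e1]; group
  -- the paths
  have hchain : ∀ (a : ℤ) (m : ℕ), ∃ L : Set Γ, L.Finite ∧ Conn (cay S) L ∧ w ^ a ∈ L ∧
      w ^ (a + m) ∈ L ∧ ∀ y ∈ L, ∃ n : ℤ, ∃ p ∈ P, y = w ^ n * p := by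
    intro a m
    induction m with
    | zero =>
      refine ⟨tr (w ^ a) P, tr_fin _ hPf, tr_conn hS _ hPc, ?_, ?_, ?_⟩
      · rw [mem_tr, inv_mul_cancel]; exact hP1
      · rw [mem_tr, Nat.cast_zero, add_zero, inv_mul_cancel]; exact hP1
      · intro y hy
        exact ⟨a, _, hy, by group⟩
    | succ m ih =>
      obtain ⟨L, h1, h2, h3, h4, h5⟩ := ih
      refine ⟨L ∪ tr (w ^ (a + m)) P, h1.union (tr_fin _ hPf),
        union_meet h2 (tr_conn hS _ hPc) h4 ?_, Or.inl h3, Or.inr ?_, ?_⟩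
      · rw [mem_tr, inv_mul_cancel]; exact hP1
      · rw [mem_tr]
        have : (w ^ (a + m))⁻¹ * w ^ (a + ((m + 1 : ℕ) : ℤ)) = w := by
          rw [Nat.cast_succ, ← add_assoc, zpow_add_one, inv_mul_cancel_left]
        rw [this]; exact hPw
      · rintro y (hy | hy)
        · exact h5 y hy
        · exact ⟨a + m, _, hy, by group⟩
  have hL : ∀ i j : ℕ, i < j → ∃ L : Set Γ, L.Finite ∧ Conn (cay S) L ∧ t i ∈ L ∧ t j ∈ L ∧
      ∀ k, k ≠ i → k ≠ j → ∀ y ∈ L, y ∉ T k := by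
    intro i j hij
    obtain ⟨L, h1, h2, h3, h4, h5⟩ := hchain ((N : ℤ) * i) (N * (j - i))
    have hcast : (N : ℤ) * i + ((N * (j - i) : ℕ) : ℤ) = (N : ℤ) * j := by
      rw [Nat.cast_mul, Nat.cast_sub hij.le]; ring
    rw [hcast] at h4
    refine ⟨(tr (w ^ ((N : ℤ) * i)) K ∪ L) ∪ tr (w ^ ((N : ℤ) * j)) K,
      ((tr_fin _ hKf).union h1).union (tr_fin _ hKf),
      union_meet (union_meet (tr_conn hS _ hKc) h2 (a := w ^ ((N : ℤ) * i)) ?_ h3)
        (tr_conn hS _ hKc) (a := w ^ ((N : ℤ) * j)) (Or.inr h4) ?_, ?_, ?_, ?_⟩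
    · rw [mem_tr, inv_mul_cancel]; exact hK1
    · rw [mem_tr, inv_mul_cancel]; exact hK1
    · left; left
      rw [mem_tr, inv_mul_cancel_left]; exact hKx
    · right
      rw [mem_tr, inv_mul_cancel_left]; exact hKx
    · rintro k hki hkj y ((hy | hy) | hy)
      · have := hb' i k (Ne.symm hki) _ hy
        rwa [mul_inv_cancel_left] at this
      · obtain ⟨n, p, hp, rfl⟩ := h5 y hy
        exact ha n k p hp
      · have := hb' j k (Ne.symm hkj) _ hy
        rwa [mul_inv_cancel_left] at this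
  have hA : ∀ i j : ℕ, ∃ A : Set Γ, A.Finite ∧ (i < j → Conn (cay S) A ∧ t i ∈ A ∧
      (∀ k, k ≠ i → ∀ y ∈ A, y ∉ T k) ∧ ∃ a ∈ A, ∃ b ∈ T j, (cay S).Adj a b) := by
    intro i j
    by_cases hij : i < j
    · obtain ⟨L, h1, h2, h3, h4, h5⟩ := hL i j hij
      obtain ⟨A, g1, g2, g3, g4, g5⟩ := cut h2 (T := T j) h3
        (fun h => hij.ne (hc i j _ (htT i) h)) h4 (htT j)
      refine ⟨A, h1.subset g1, fun _ => ⟨g4, g2, ?_, g5⟩⟩
      intro k hk y hy
      by_cases hkj : k = j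
      · rw [hkj]; exact g3 y hy
      · exact h5 k hk hkj y (g1 hy)
    · exact ⟨∅, Set.finite_empty, fun h => absurd h hij⟩
  choose A hAf hA using hA
  let A' : ℕ → Set Γ := fun n => A (Nat.unpair n).1 (Nat.unpair n).2
  obtain ⟨e, he⟩ := exists_seq (α := ℤ) (fun n prev e => ∀ m (hm : m < n), ∀ y ∈ A' n,
      ∀ y' ∈ A' m, z ^ e * y ≠ z ^ (prev m hm) * y') (by
    intro n prev
    have hD : (⋃ m : Fin n, Set.image2 (fun y y' => z ^ (prev m.1 m.2) * y' * y⁻¹)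
        (A' n) (A' m.1)).Finite :=
      Set.finite_iUnion (fun m => (hAf _ _).image2 _ (hAf _ _))
    obtain ⟨e, he⟩ := (hD.preimage (f := fun i : ℤ => z ^ i) hzi.injOn).exists_notMem
    refine ⟨e, ?_⟩
    intro m hm y hy y' hy' heq
    apply he
    refine Set.mem_iUnion.2 ⟨⟨m, hm⟩, y, hy, y', hy', ?_⟩
    show z ^ (prev m hm) * y' * y⁻¹ = z ^ e
    rw [← heq, mul_inv_cancel_right])
  have he2 : ∀ i j k l : ℕ, Nat.pair i j < Nat.pair k l → ∀ a ∈ A k l, ∀ b ∈ A i j,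
      z ^ (e (Nat.pair k l)) * a ≠ z ^ (e (Nat.pair i j)) * b := by
    intro i j k l h a ha b hb
    refine he _ _ h a ?_ b ?_
    · show a ∈ A (Nat.unpair (Nat.pair k l)).1 (Nat.unpair (Nat.pair k l)).2
      rw [Nat.unpair_pair]; exact ha
    · show b ∈ A (Nat.unpair (Nat.pair i j)).1 (Nat.unpair (Nat.pair i j)).2
      rw [Nat.unpair_pair]; exact hb
  let φ : ℕ → Set Γ := fun i => T i ∪ ⋃ j : {j : ℕ // i < j},
    tr (z ^ (e (Nat.pair i j.1))) (A i j.1)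
  have hφA : ∀ i j, i < j → ∀ a ∈ A i j, z ^ (e (Nat.pair i j)) * a ∈ φ i := by
    intro i j hij a ha
    refine Or.inr (Set.mem_iUnion.2 ⟨⟨j, hij⟩, ?_⟩)
    rw [mem_tr, inv_mul_cancel_left]; exact ha
  refine ⟨φ, ?_, ?_, ?_⟩
  · intro i
    refine union_star (hTc i) _ (fun j => tr_conn hS _ (hA i j.1 j.2).1) ?_
    intro j
    refine ⟨z ^ (e (Nat.pair i j.1)) * t i, hTz _ _ _ (htT i), ?_⟩
    rw [mem_tr, inv_mul_cancel_left]
    exact (hA i j.1 j.2).2.1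
  · have mix : ∀ i k y, y ∈ T i → (y ∈ ⋃ j : {j : ℕ // k < j},
        tr (z ^ (e (Nat.pair k j.1))) (A k j.1)) → i = k := by
      intro i k y hy hy2
      obtain ⟨j, hj⟩ := Set.mem_iUnion.1 hy2
      by_contra hik
      refine (hA k j.1 j.2).2.2.1 i hik _ hj ?_
      rw [← zpow_neg]
      exact hTz _ _ _ hy
    rintro i k y (hy | hy) (hy2 | hy2)
    · exact hc i k y hy hy2
    · exact mix i k y hy hy2
    · exact (mix k i y hy2 hy).symm
    · obtain ⟨j, hj⟩ := Set.mem_iUnion.1 hy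
      obtain ⟨l, hl⟩ := Set.mem_iUnion.1 hy2
      have hy' : ∀ g : Γ, y = g * (g⁻¹ * y) := fun g => by group
      rcases lt_trichotomy (Nat.pair i j.1) (Nat.pair k l.1) with h | h | h
      · refine absurd ?_ (he2 _ _ _ _ h _ hl _ hj)
        rw [← hy', ← hy']
      · exact (Nat.pair_eq_pair.1 h).1
      · refine absurd ?_ (he2 _ _ _ _ h _ hj _ hl)
        rw [← hy', ← hy']
  · have key : ∀ i k, i < k → ∃ a ∈ φ i, ∃ b ∈ φ k, (cay S).Adj a b := by
      intro i k hik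
      obtain ⟨a, ha, b, hb, hab⟩ := (hA i k hik).2.2.2
      refine ⟨_, hφA i k hik a ha, z ^ (e (Nat.pair i k)) * b, Or.inl (hTz _ _ _ hb), ?_⟩
      rw [cay_adj hS] at hab ⊢
      have : (z ^ e (Nat.pair i k) * a)⁻¹ * (z ^ e (Nat.pair i k) * b) = a⁻¹ * b := by group
      rw [this]; exact hab
    intro i k hik
    have hne : i ≠ k := hik
    rcases lt_or_gt_of_ne hne with h | h
    · exact key i k h
    · obtain ⟨a, ha, b, hb, hab⟩ := key k i h
      exact ⟨b, hb, a, ha, hab.symm⟩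

end Pool.Agent.Helper35.NW
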