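import Pool.Agent.Helper65.NW.Goals
import Pool.Agent.Helper94.HC.LSW
import Pool.Agent.Helper81.Sus2.LSE

/-!
# Packet NW-LSP: the basic functions are computed in linear space
-/

namespace Pool.Agent.Helper35.NW

open Pool.Agent.Helper65.LinSpace Pool.Agent.Helper78.Mpc Pool.Agent.Helper28.Ram
open Pool.Agent.Helper65.NW Finset
open Pool.Agent.Helper59.Ram (LS_CR CM_le_CR pow_ll_le)
open Pool.Agent.Helper28.Long (pow_le_CR ZL ZL_le)
open Pool.Agent.Helper65.RT (qT CT ls_qT ls_CT ls_ll)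
open Pool.Agent.Helper94.HC (ls_ZL)

variable {α : Type} [Ctx α]

theorem ls_sT {n T : α → ℕ} (hn : LS n) (hT : LS T) : LS (fun z => sT (n z) (T z)) := by
  unfold sT
  exact LS.min (LS.dig (LS.add hn (LS.const 2)) hT (LS.const 0))
    (LS.min (LS.sub (ls_qT hn) (LS.const 1)) (ls_ZL hn))

theorem ls_aT {n T : α → ℕ} (hn : LS n) (hT : LS T) : LS (fun z => aT (n z) (T z)) := by
  unfold aT
  exact LS.min (LS.dig (LS.add hn (LS.const 2)) hT (LS.const 1)) (ls_ZL hn)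

theorem ls_vT {n T : α → ℕ} (hn : LS n) (hT : LS T) : LS (fun z => vT (n z) (T z)) := by
  unfold vT
  exact LS.min (LS.dig (LS.add hn (LS.const 2)) hT (LS.const 2))
    (LS.div (ls_qT hn) (LS.add (ls_sT hn hT) (LS.const 1)))

theorem ls_bT {n T : α → ℕ} (hn : LS n) (hT : LS T) : LS (fun z => bT (n z) (T z)) := by
  unfold bT
  exact LS.min (LS.dig (LS.add hn (LS.const 2)) hT (LS.const 3)) (ls_vT hn hT)

theorem sT_le_ZL (n T : ℕ) : sT n T ≤ ZL n :=
  (min_le_right _ _).trans (min_le_right _ _)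

theorem sT_le (n T : ℕ) : sT n T ≤ n := (sT_le_ZL n T).trans (ZL_le n)

theorem aT_le (n T : ℕ) : aT n T ≤ n :=
  (min_le_right _ _).trans (ZL_le n)

/-! ### Bounds for the codes -/

theorem catN_le (a b : ℕ) : catN a b ≤ a * b := by
  unfold catN
  rcases Nat.eq_zero_or_pos a with ha | ha
  · rw [ha, ifz_zero]
    exact Nat.zero_le _
  · rcases Nat.eq_zero_or_pos b with hb | hb
    · rw [hb, ifz_ne ha.ne', ifz_zero]
      exact Nat.zero_le _
    · rw [ifz_ne ha.ne', ifz_ne hb.ne']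
      have h1 := Nat.pow_log_le_self 2 ha.ne'
      obtain ⟨r, hr⟩ := Nat.exists_eq_add_of_le h1
      set P := 2 ^ Nat.log 2 a
      rw [hr, Nat.add_sub_cancel_left, add_mul]
      have : r ≤ r * b := Nat.le_mul_of_pos_right _ hb
      omega

theorem sdN_le (v : ℕ) : sdN v ≤ 2 ^ (2 * Nat.log 2 v + 2) := by
  unfold sdN
  rcases Nat.eq_zero_or_pos v with hv | hv
  · rw [hv, ifz_zero]
    exact Nat.zero_le _
  · rw [ifz_ne hv.ne']
    have h1 : tab 2 (2 * Nat.log 2 v + 1) (fun t => ifz (t % 2) (lt01 (t / 2) (Nat.log 2 v))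
        (dig 2 v (t / 2))) < 2 ^ (2 * Nat.log 2 v + 1) := by
      refine tab_lt fun t _ => ?_
      have h1 := dig_lt (q := 2) (by norm_num) v (t / 2)
      simp only [ifz, lt01]
      split_ifs <;> omega
    have h2 : 2 ^ (2 * Nat.log 2 v + 2) = 2 ^ (2 * Nat.log 2 v + 1) + 2 ^ (2 * Nat.log 2 v + 1) := by
      rw [pow_succ 2 (2 * Nat.log 2 v + 1)]
      ring
    omega

theorem viewN_le (P : Prm) (p t z X i : ℕ) :
    P.viewN p t z X i ≤ P.hdN t p z * 2 ^ ((2 * P.S + 2) * i) := by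
  unfold Prm.viewN
  induction i with
  | zero => simp
  | succ i ih =>
    rw [nrec_succ]
    refine (catN_le _ _).trans ?_
    have h1 : dig (2 ^ (P.S + 1)) X i < 2 ^ (P.S + 1) := dig_lt (by positivity) _ _
    have h2 : Nat.log 2 (dig (2 ^ (P.S + 1)) X i) ≤ P.S := by
      have := Nat.log_lt_of_lt_pow' (b := 2) (x := P.S + 1) (by omega) h1
      omega
    have h3 : sdN (dig (2 ^ (P.S + 1)) X i) ≤ 2 ^ (2 * P.S + 2) :=
      (sdN_le _).trans (Nat.pow_le_pow_right (by norm_num) (by omega))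
    calc _ ≤ (P.hdN t p z * 2 ^ ((2 * P.S + 2) * i)) * 2 ^ (2 * P.S + 2) :=
          Nat.mul_le_mul ih h3
      _ = _ := by
          rw [mul_assoc, ← pow_add]
          congr 2

section

variable (c₀ : ℕ) {e x y T : α → ℕ}

theorem ls_fS (hx : LS x) (hT : LS T) {d u : α → ℕ} (hd : LS d) (hu : LS u) :
    LS (fun z => fnN (d z) (sT (Nat.log 2 (x z)) (T z)) (LW (Nat.log 2 (x z)))
      (2 ^ (2 * ll (Nat.log 2 (x z)))) (CR (x z)) (u z)) := by
  have hn : LS (fun z => Nat.log 2 (x z)) := LS.log2 hx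
  refine LS.fnN hd (ls_sT hn hT) (LS.LW hn) (Pool.Agent.Helper94.HC.ls_beta hx) (LS_CR hx) hu
    (LS_CR hx) (fun b => by positivity)
    (fun b => (beta_pow_le (x b)).trans (CM_le_CR (x b))) (fun b => ?_)
  refine pow_le_CR ?_
  have h6 := sT_le (Nat.log 2 (x b)) (T b)
  omega

theorem ls_fZ (hx : LS x) (hT : LS T) {d u : α → ℕ} (hd : LS d) (hu : LS u) :
    LS (fun z => fnN (d z) (aT (Nat.log 2 (x z)) (T z)) (LW (Nat.log 2 (x z)))
      (2 ^ (2 * ll (Nat.log 2 (x z)))) (CR (x z)) (u z)) := by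
  have hn : LS (fun z => Nat.log 2 (x z)) := LS.log2 hx
  refine LS.fnN hd (ls_aT hn hT) (LS.LW hn) (Pool.Agent.Helper94.HC.ls_beta hx) (LS_CR hx) hu
    (LS_CR hx) (fun b => by positivity)
    (fun b => (beta_pow_le (x b)).trans (CM_le_CR (x b))) (fun b => ?_)
  refine pow_le_CR ?_
  have h6 := aT_le (Nat.log 2 (x b)) (T b)
  omega

theorem ls_wd {p : α → ℕ} (hp : LS p) : LS (fun z => Prm.wd (p z)) := by
  unfold Prm.wd
  exact LS.mul (LS.const 2) (LS.pow_log hp)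

theorem ls_hdN (hx : LS x) {p t z : α → ℕ} (hp : LS p) (ht : LS t) (hz : LS z) :
    LS (fun a => (prm c₀ (e a) (x a) (y a) (T a)).hdN (t a) (p a) (z a)) := by
  have hn : LS (fun z => Nat.log 2 (x z)) := LS.log2 hx
  exact LS.catN (LS.sdN (LS.bitsN hn)) (LS.catN (LS.sdN (LS.bitsN ht))
    (LS.catN (LS.sdN hp) (LS.sdN hz)))

theorem ls_dg (he : LS e) (hx : LS x) :
    LS (fun z => (prm c₀ (e z) (x z) (y z) (T z)).dg) := by
  have h1 : LS (fun z => (Nat.unpair (e z)).1) := by fun_prop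
  exact LS.min h1 (ls_ll (ls_ll (LS.log2 hx)))

theorem ls_inpN (he : LS e) (hx : LS x) (hT : LS T) {p t z i : α → ℕ} (hp : LS p)
    (ht : LS t) (hz : LS z) (hi : LS i) :
    LS (fun a => (prm c₀ (e a) (x a) (y a) (T a)).inpN (p a) (t a) (z a) (i a)) := by
  have heN : LS (fun z => (Nat.unpair (Nat.unpair (Nat.unpair (e z)).2).1).1) := by fun_prop
  have hu : LS (fun a => catN ((prm c₀ (e a) (x a) (y a) (T a)).hdN (t a) (p a) (z a))
      (bitsN (i a))) := LS.catN (ls_hdN c₀ hx hp ht hz) (LS.bitsN hi)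
  have hnb := ls_fZ hx hT heN hu
  exact LS.mod (LS.ifz (LS.mul (LS.lt01 (LS.const 0) hnb) (LS.eq01 (LS.log2 hnb) (LS.log2 hp)))
    hz hnb) (ls_wd hp)

theorem dg_le (n d T : ℕ) : (2 * sT n T + 2) * min d (ll (ll n)) ≤ 8 * n + 8 := by
  have h1 : min d (ll (ll n)) ≤ ll (ll n) := min_le_right _ _
  have h2 : sT n T * ll (ll n) ≤ n := by
    calc sT n T * ll (ll n) ≤ ZL n * ll (ll n) := Nat.mul_le_mul_right _ (sT_le_ZL n T)
      _ ≤ LW n := Nat.div_mul_le_self _ _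
      _ ≤ n := Nat.div_le_self _ _
  have h3 : ll (ll n) ≤ n + 2 := by
    unfold ll
    have h4 := Nat.log_le_self 2 (Nat.log 2 n + 1)
    have h5 := Nat.log_le_self 2 n
    omega
  calc (2 * sT n T + 2) * min d (ll (ll n)) ≤ (2 * sT n T + 2) * ll (ll n) :=
        Nat.mul_le_mul_left _ h1
    _ = 2 * (sT n T * ll (ll n)) + 2 * ll (ll n) := by ring
    _ ≤ 8 * n + 8 := by omega

theorem ls_viewN (he : LS e) (hx : LS x) (hT : LS T) {p t z X : α → ℕ} (hp : LS p)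
    (ht : LS t) (hz : LS z) (hX : LS X) :
    LS (fun a => (prm c₀ (e a) (x a) (y a) (T a)).viewN (p a) (t a) (z a) (X a)
        (prm c₀ (e a) (x a) (y a) (T a)).dg) := by
  have hn : LS (fun z => Nat.log 2 (x z)) := LS.log2 hx
  have hS : LS (fun z => sT (Nat.log 2 (x z)) (T z)) := ls_sT hn hT
  have hpS : LS (fun z => 2 ^ (sT (Nat.log 2 (x z)) (T z) + 1)) := by
    refine LS.pow_of_le (f := fun _ => 2) (g := fun z => sT (Nat.log 2 (x z)) (T z) + 1)
      (LS.const 2) (LS.add hS (LS.const 1)) (LS_CR hx) fun z => ?_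
    have h := sT_le (Nat.log 2 (x z)) (T z)
    exact pow_le_CR (by omega)
  refine LS.nrec (G := fun a => (prm c₀ (e a) (x a) (y a) (T a)).hdN (t a) (p a) (z a))
    (N := fun a => (prm c₀ (e a) (x a) (y a) (T a)).dg)
    (C := fun a => (prm c₀ (e a) (x a) (y a) (T a)).hdN (t a) (p a) (z a) * CR (x a))
    (K := fun a i u => catN u (sdN (dig (2 ^ (sT (Nat.log 2 (x a)) (T a) + 1)) (X a) i)))
    (ls_hdN c₀ hx hp ht hz) (ls_dg c₀ he hx)
    (LS.mul (ls_hdN c₀ hx hp ht hz) (LS_CR hx)) ?_ ?_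
  · have h1 : LS (fun q : α × ℕ × ℕ => 2 ^ (sT (Nat.log 2 (x q.1)) (T q.1) + 1)) :=
      LS.comp (g := fun z : α => 2 ^ (sT (Nat.log 2 (x z)) (T z) + 1)) hpS LS.fst
    have h2 : LS (fun q : α × ℕ × ℕ => X q.1) := by fun_prop
    have h3 : LS (fun q : α × ℕ × ℕ => q.2.1) := by fun_prop
    have h4 : LS (fun q : α × ℕ × ℕ => q.2.2) := by fun_prop
    exact LS.catN h4 (LS.sdN (LS.dig h1 h2 h3))
  · intro a i hi
    refine (viewN_le (prm c₀ (e a) (x a) (y a) (T a)) (p a) (t a) (z a) (X a) i).trans ?_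
    refine Nat.mul_le_mul_left _ (pow_le_CR ?_)
    have h1 : (2 * sT (Nat.log 2 (x a)) (T a) + 2) * i ≤
        (2 * sT (Nat.log 2 (x a)) (T a) + 2) * min (Nat.unpair (e a)).1
          (ll (ll (Nat.log 2 (x a)))) := Nat.mul_le_mul_left _ hi
    have h2 := dg_le (Nat.log 2 (x a)) (Nat.unpair (e a)).1 (T a)
    show (2 * sT (Nat.log 2 (x a)) (T a) + 2) * i ≤ _
    omega

theorem ls_nxtN (he : LS e) (hx : LS x) (hy : LS y) (hT : LS T) {u : α → ℕ} (hu : LS u) :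
    LS (fun a => (prm c₀ (e a) (x a) (y a) (T a)).nxtN (u a)) := by
  have hn : LS (fun z => Nat.log 2 (x z)) := LS.log2 hx
  have heA : LS (fun z => (Nat.unpair (Nat.unpair (Nat.unpair (e z)).2).1).2) := by fun_prop
  have heX : LS (fun z => (Nat.unpair (Nat.unpair (Nat.unpair (e z)).2).2).1) := by fun_prop
  have hadr := ls_fZ hx hT heA hu
  have hbv : LS (fun a => bvalN ((prm c₀ (e a) (x a) (y a) (T a)).adrN (u a))) :=
    LS.sub hadr (LS.pow_log hadr)
  have hlt : ∀ {w : α → ℕ}, LS w → LS (fun a => ltN (w a)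
      (bvalN ((prm c₀ (e a) (x a) (y a) (T a)).adrN (u a)))) := by
    intro w hw
    have h1 := LS.letN hw hbv
    exact LS.ifz h1 (LS.const 1) (LS.add (LS.const 1) h1)
  have h2 := ls_fS hx hT heX (LS.catN (LS.sdN (hlt hx)) (LS.catN (LS.sdN (hlt hy)) hu))
  exact LS.capN (ls_sT hn hT) (LS.ifz hadr (LS.const 0) h2)

theorem lsp_dc (he : LS e) (hx : LS x) (hy : LS y) (hT : LS T) :
    Pool.Agent.Helper81.Sus2.LSP (fun z => (prm c₀ (e z) (x z) (y z) (T z)).dc)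
      (fun z => CR (x z)) := by
  have hn : LS (fun z => Nat.log 2 (x z)) := LS.log2 hx
  have h0 : LS (fun _ : α => 0) := LS.const 0
  have heD : LS (fun z => (Nat.unpair (Nat.unpair (Nat.unpair (Nat.unpair (e z)).2).2).2).1) := by
    fun_prop
  have heX : LS (fun z => (Nat.unpair (Nat.unpair (Nat.unpair (Nat.unpair (e z)).2).2).2).2) := by
    fun_prop
  have h4 : ∀ z, 2 ^ (0 + 2) ≤ CR (x z) := fun z => pow_le_CR (by omega)
  exact
    { eA := h0
      eN := h0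
      eW := h0
      eK := h0
      eG := h0
      eR := h0
      eD := heD
      eX := heX
      ini := h0
      B0 := h0
      st := h0
      Λ := LS.LW hn
      β := Pool.Agent.Helper94.HC.ls_beta hx
      B := LS_CR hx
      x := hx
      y := hy
      S := h0
      Z := ls_aT hn hT
      u := h0
      V := h0
      z := h0
      hC := LS_CR hx
      bβ0 := fun z => by
        show 0 < 2 ^ (2 * ll (Nat.log 2 (x z)))
        positivity
      bβ := fun z => (beta_pow_le (x z)).trans (CM_le_CR (x z))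
      bS := h4
      bZ := fun z => by
        show 2 ^ (aT (Nat.log 2 (x z)) (T z) + 2) ≤ CR (x z)
        have h := aT_le (Nat.log 2 (x z)) (T z)
        exact pow_le_CR (by omega)
      bV := h4
      bu := fun z => pow_le_CR (t := 0) (by omega)
      bz := h4 }

theorem ls_pZ (hx : LS x) (hT : LS T) :
    LS (fun z => 2 ^ (prm c₀ (e z) (x z) (y z) (T z)).Z) := by
  refine LS.pow_of_le (f := fun _ => 2) (g := fun z => aT (Nat.log 2 (x z)) (T z))
    (LS.const 2) (ls_aT (LS.log2 hx) hT) (LS_CR hx) fun z => ?_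
  have h := aT_le (Nat.log 2 (x z)) (T z)
  exact pow_le_CR (by omega)

theorem ls_ct (hx : LS x) (hT : LS T) {c : α → ℕ} (hc : LS c) :
    LS (fun z => (prm c₀ (e z) (x z) (y z) (T z)).ct (c z)) :=
  LS.mod (LS.sub hc (LS.const 1)) (ls_pZ c₀ hx hT)

theorem ls_cD (hx : LS x) (hT : LS T) {c : α → ℕ} (hc : LS c) :
    LS (fun z => (prm c₀ (e z) (x z) (y z) (T z)).cD (c z)) :=
  LS.div (LS.sub hc (LS.const 1)) (ls_pZ c₀ hx hT)

theorem ls_say (he : LS e) (hx : LS x) (hy : LS y) (hT : LS T) {p c z : α → ℕ} (hp : LS p)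
    (hc : LS c) (hz : LS z) :
    LS (fun a => (prm c₀ (e a) (x a) (y a) (T a)).say (p a) (c a) (z a)) :=
  Pool.Agent.Helper81.Sus2H56.ls_lk (lsp_dc c₀ he hx hy hT) (ls_cD c₀ hx hT hc)
    (ls_hdN c₀ hx hp (ls_ct c₀ hx hT hc) hz)

theorem ls_cz (hx : LS x) (hT : LS T) :
    LS (fun z => (prm c₀ (e z) (x z) (y z) (T z)).cz) := by
  have h1 : LS (fun z => 2 ^ (prm c₀ (e z) (x z) (y z) (T z)).Z *
      ((2 ^ Nat.log 2 (x z)) ^ c₀ * 2) + 1) :=
    LS.add (LS.mul (ls_pZ c₀ hx hT) (LS.mul (LS.pow_const (LS.pow_log hx) c₀) (LS.const 2)))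
      (LS.const 1)
  refine h1.congr fun z => ?_
  show 2 ^ (prm c₀ (e z) (x z) (y z) (T z)).Z * 2 ^ (c₀ * Nat.log 2 (x z) + 1) + 1 = _
  rw [pow_succ 2 (c₀ * Nat.log 2 (x z)), ← pow_mul, mul_comm c₀]

end

theorem lsp : LSP_stmt := by
  intro c₀ α _ e x y T he hx hy hT
  have hn : LS (fun z => Nat.log 2 (x z)) := LS.log2 hx
  exact ⟨fun hp ht hz hi => ls_inpN c₀ he hx hT hp ht hz hi,
    fun hp ht hz hX => ls_viewN c₀ he hx hT hp ht hz hX,
    fun hu => ls_nxtN c₀ he hx hy hT hu,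
    fun hc => ⟨ls_ct c₀ hx hT hc, ls_cD c₀ hx hT hc⟩,
    fun hp hc hz => ⟨ls_say c₀ he hx hy hT hp hc hz,
      LS.ifz (ls_ct c₀ hx hT hc) (LS.const 1)
        (LS.capN (ls_sT hn hT) (ls_say c₀ he hx hy hT hp hc hz))⟩,
    fun hp => ls_wd hp, ls_sT hn hT, ls_vT hn hT, ls_bT hn hT, ls_qT hn, ls_dg c₀ he hx,
    ls_pZ c₀ hx hT, ls_cz c₀ hx hT⟩

end Pool.Agent.Helper35.NW
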